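import Mathlib.Algebra.Polynomial.Derivative
import Mathlib.Data.Complex.Basic
import Mathlib.Data.Set.Card
import Mathlib.Tactic

/-!
The lower bound `m + 2` for the number of distinct zeros of a polynomial and of `m` of its
derivatives fails: take `P = (X ^ 2 - 1) ^ 2` and the orders `1, 3`.
-/

namespace Pool.Agent.Results.MP_106bf9_an.SquareCounterexample

open Polynomial

/-- The set of distinct complex zeros of a polynomial. -/
def zeroSet (f : ℂ[X]) : Set ℂ := {z | f.eval z = 0}

/-- The number of distinct zeros of `P` together with its derivatives of the orders `r i`. -/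
noncomputable def distinctZeros {m : ℕ} (P : ℂ[X]) (r : Fin m → ℕ) : ℕ :=
  (zeroSet P ∪ ⋃ i, zeroSet (derivative^[r i] P)).ncard

theorem result :
    ¬ ∀ n : ℕ, 2 ≤ n → ∀ m : ℕ, 1 ≤ m → m ≤ n - 1 → ∀ r : Fin m → ℕ, StrictMono r →
      (∀ i, 1 ≤ r i ∧ r i ≤ n - 1) → ∀ P : ℂ[X], P.natDegree = n →
      2 ≤ (zeroSet P).ncard → m + 2 ≤ distinctZeros P r := by
  intro h
  let P : ℂ[X] := X ^ 4 - 2 * X ^ 2 + 1
  have hdeg : P.natDegree = 4 := by
    simp only [P]
    compute_degree!
  have hP : ∀ z : ℂ, P.eval z = (z - 1) ^ 2 * (z + 1) ^ 2 := by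
    intro z
    simp [P]
    ring
  have hz : zeroSet P = {1, -1} := by
    ext z
    change P.eval z = 0 ↔ _
    simp only [hP, mul_eq_zero, pow_eq_zero_iff, ne_eq,
      OfNat.ofNat_ne_zero, not_false_eq_true, Set.mem_insert_iff, Set.mem_singleton_iff]
    constructor
    · rintro (h | h)
      · left; linear_combination h
      · right; linear_combination h
    · rintro (h | h)
      · left; rw [h]; ring
      · right; rw [h]; ring
  have hne : (1 : ℂ) ≠ -1 := by
    intro h
    have := congrArg Complex.re h
    norm_num at this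
  have hcard : (zeroSet P).ncard = 2 := by
    rw [hz]
    exact Set.ncard_pair hne
  have h1 : ∀ z : ℂ, (derivative^[1] P).eval z = 4 * z * (z - 1) * (z + 1) := by
    intro z
    simp [P]
    ring
  have h3 : ∀ z : ℂ, (derivative^[3] P).eval z = 24 * z := by
    intro z
    simp [P]
    ring
  have hr : StrictMono (![1, 3] : Fin 2 → ℕ) := by
    intro i j hij
    fin_cases i <;> fin_cases j <;> simp_all
  have key := h 4 (by norm_num) 2 (by norm_num) (by norm_num) ![1, 3] hr
    (by intro i; fin_cases i <;> simp) P hdeg (by rw [hcard])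
  have hsub : zeroSet P ∪ ⋃ i : Fin 2, zeroSet (derivative^[(![1, 3] : Fin 2 → ℕ) i] P) ⊆
      ((({0, 1, -1} : Finset ℂ)) : Set ℂ) := by
    intro z hz'
    rcases hz' with hz' | hz'
    · rw [hz] at hz'
      rcases hz' with rfl | hz'
      · simp
      · rw [Set.mem_singleton_iff] at hz'
        simp [hz']
    · rw [Set.mem_iUnion] at hz'
      obtain ⟨i, hi⟩ := hz'
      fin_cases i
      · have hi' : (derivative^[1] P).eval z = 0 := hi
        rw [h1] at hi'
        have : z = 0 ∨ z = 1 ∨ z = -1 := by
          rcases mul_eq_zero.1 hi' with hi' | hi'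
          · rcases mul_eq_zero.1 hi' with hi' | hi'
            · left; simpa using hi'
            · right; left; linear_combination hi'
          · right; right; linear_combination hi'
        simpa using this
      · have hi' : (derivative^[3] P).eval z = 0 := hi
        rw [h3] at hi'
        have : z = 0 := by simpa using hi'
        simp [this]
  have hle : distinctZeros P (![1, 3] : Fin 2 → ℕ) ≤ 3 := by
    unfold distinctZeros
    refine (Set.ncard_le_ncard hsub (Finset.finite_toSet _)).trans ?_
    rw [Set.ncard_coe_finset]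
    exact Finset.card_le_three
  omega

end Pool.Agent.Results.MP_106bf9_an.SquareCounterexample
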